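import Pool.Agent.N983.RT.Stm2

set_option autoImplicit false

/-! A priori bounds for the truncated systems. -/

namespace Pool.Agent.U527.RT

open Pool.Agent.N983.RT Set

theorem nsq_nonneg (k : Wv) : 0 ≤ nsq k := Finset.sum_nonneg fun _ _ => sq_nonneg _

theorem one_le_nsq {k : Wv} (hk : k ≠ 0) : 1 ≤ nsq k := by
  have h : (1 : ℤ) ≤ ∑ i, (k i) ^ 2 := by
    by_contra hcon
    have h0 : ∑ i, (k i) ^ 2 = 0 :=
      le_antisymm (by omega) (Finset.sum_nonneg fun i _ => sq_nonneg _)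
    rw [Finset.sum_eq_zero_iff_of_nonneg (fun i _ => sq_nonneg _)] at h0
    exact hk (funext fun i => by simpa using h0 i (Finset.mem_univ i))
  unfold nsq
  exact_mod_cast h

/-- Grönwall's inequality. -/
theorem gron {f f' : ℝ → ℝ} {c : ℝ} (hf : ∀ t, 0 ≤ t → HasDerivWithinAt f (f' t) (Ici 0) t)
    (h : ∀ t, 0 ≤ t → f' t ≤ c * f t) (t : ℝ) (ht : 0 ≤ t) : f t ≤ f 0 * Real.exp (c * t) := by
  have hc : ∀ t : ℝ, HasDerivAt (fun t => Real.exp (-c * t)) (Real.exp (-c * t) * (-c)) t := by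
    intro t
    simpa using ((hasDerivAt_id t).const_mul (-c)).exp
  have hg : AntitoneOn (fun t => Real.exp (-c * t) * f t) (Ici 0) := by
    refine antitoneOn_of_hasDerivWithinAt_nonpos (convex_Ici 0)
      (f' := fun t => Real.exp (-c * t) * (-c) * f t + Real.exp (-c * t) * f' t) ?_ ?_ ?_
    · intro t ht
      exact (hc t).continuousAt.continuousWithinAt.mul (hf t ht).continuousWithinAt
    · intro t ht
      rw [interior_Ici] at ht
      have h1 : HasDerivAt f (f' t) t := (hf t (le_of_lt ht)).hasDerivAt (Ici_mem_nhds ht)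
      exact ((hc t).mul h1).hasDerivWithinAt
    · intro t ht
      rw [interior_Ici] at ht
      have h1 := h t (le_of_lt ht)
      have h2 := Real.exp_pos (-c * t)
      nlinarith [mul_le_mul_of_nonneg_left h1 h2.le]
  have h1 := hg (mem_Ici.2 le_rfl) (mem_Ici.2 ht) ht
  simp only [mul_zero, Real.exp_zero, one_mul] at h1
  have h2 : f t = Real.exp (c * t) * (Real.exp (-c * t) * f t) := by
    rw [← mul_assoc, ← Real.exp_add]
    simp
  rw [h2, mul_comm]
  exact mul_le_mul_of_nonneg_right h1 (Real.exp_pos _).le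

/-- The initial values. -/
theorem init_bound (hS : S_SUM) {u₀ : Fld} (hr : Rapid u₀) (s : ℕ) :
    ∃ M, 0 ≤ M ∧ ∀ n, En s n (cut n u₀) ≤ M := by
  obtain ⟨C, hC⟩ := hr (s + 3)
  have hx0 : ∀ k, 1 ≤ 1 + nsq k := fun k => by have := nsq_nonneg k; linarith
  have hp : ∀ k, 0 < 1 + nsq k := fun k => by have := hx0 k; linarith
  refine ⟨3 * C ^ 2 * ∑' k : Wv, ((1 + nsq k) ^ 3)⁻¹, ?_, fun n => ?_⟩
  · refine mul_nonneg (by positivity) (tsum_nonneg fun k => ?_)
    have := hp k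
    positivity
  unfold En
  calc ∑ k ∈ cub n, nsq k ^ s * ∑ i, ‖cut n u₀ k i‖ ^ 2
      ≤ ∑ k ∈ cub n, 3 * C ^ 2 * ((1 + nsq k) ^ 3)⁻¹ := Finset.sum_le_sum fun k hk => ?_
    _ = 3 * C ^ 2 * ∑ k ∈ cub n, ((1 + nsq k) ^ 3)⁻¹ := by rw [Finset.mul_sum]
    _ ≤ _ := by
      refine mul_le_mul_of_nonneg_left (hS.sum_le_tsum _ fun k _ => ?_) (by positivity)
      have := hp k
      positivity
  have hx := hx0 k
  have hpk := hp k
  have hn := nsq_nonneg k
  have hi : ∀ i, nsq k ^ s * ‖u₀ k i‖ ^ 2 ≤ C ^ 2 * ((1 + nsq k) ^ 3)⁻¹ := by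
    intro i
    rw [← div_eq_mul_inv, le_div_iff₀ (by positivity)]
    calc nsq k ^ s * ‖u₀ k i‖ ^ 2 * (1 + nsq k) ^ 3
        ≤ (1 + nsq k) ^ s * ‖u₀ k i‖ ^ 2 * (1 + nsq k) ^ 3 := by
          gcongr
          linarith
      _ = (1 + nsq k) ^ (s + 3) * ‖u₀ k i‖ ^ 2 * 1 := by ring
      _ ≤ (1 + nsq k) ^ (s + 3) * ‖u₀ k i‖ ^ 2 * (1 + nsq k) ^ (s + 3) := by
          gcongr
          exact one_le_pow₀ hx
      _ = ((1 + nsq k) ^ (s + 3) * ‖u₀ k i‖) ^ 2 := by ring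
      _ ≤ C ^ 2 := by
          have h1 := hC k i
          have h2 : 0 ≤ (1 + nsq k) ^ (s + 3) * ‖u₀ k i‖ := by positivity
          exact pow_le_pow_left₀ h2 h1 2
  have hcut : cut n u₀ k = u₀ k := by
    unfold cut
    rw [if_pos hk]
  rw [hcut, Finset.mul_sum]
  calc ∑ i, nsq k ^ s * ‖u₀ k i‖ ^ 2 ≤ ∑ _i : Fin 3, C ^ 2 * ((1 + nsq k) ^ 3)⁻¹ :=
        Finset.sum_le_sum fun i _ => hi i
    _ = 3 * C ^ 2 * ((1 + nsq k) ^ 3)⁻¹ := by
      simp
      ring

section Energy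

variable {g : Wv → Wv → Wv → ℝ} {ν α : ℝ} {u : ℝ → Fld}

theorem deriv_term (hu : IsSol g ν α u) (m : Wv) (j : Fin 3) {t : ℝ} (ht : 0 ≤ t) :
    HasDerivWithinAt (fun t => ‖u t m j‖ ^ 2)
      (2 * ((starRingEnd ℂ) (u t m j) * rhs g ν α (u t) m j).re) (Ici 0) t := by
  by_cases hm : m = 0
  · subst hm
    have h0 : ∀ t, 0 ≤ t → u t 0 j = 0 := fun t ht => by rw [(hu.adm t ht).zero]; rfl
    have h1 : HasDerivWithinAt (fun _ : ℝ => (0 : ℝ)) 0 (Ici 0) t := hasDerivWithinAt_const _ _ _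
    have h2 : 2 * ((starRingEnd ℂ) (u t 0 j) * rhs g ν α (u t) 0 j).re = 0 := by
      rw [h0 t ht]
      simp
    rw [h2]
    refine h1.congr (fun s hs => ?_) ?_
    · simp [h0 s hs]
    · simp [h0 t ht]
  · have h1 := (hu.eqn t ht m hm j).norm_sq
    rw [Complex.inner, mul_comm (rhs g ν α (u t) m j)] at h1
    exact h1

theorem re_term (v w : ℂ) (c : ℝ) :
    ((starRingEnd ℂ) v * (-(c : ℂ) * v - w)).re = -c * ‖v‖ ^ 2 + ((starRingEnd ℂ) v * (-w)).re := by
  have h1 : (starRingEnd ℂ) v * (-(c : ℂ) * v - w)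
      = ((-c * ‖v‖ ^ 2 : ℝ) : ℂ) + (starRingEnd ℂ) v * (-w) := by
    have h2 := Complex.conj_mul' v
    push_cast
    linear_combination -(c : ℂ) * h2
  rw [h1, Complex.add_re, Complex.ofReal_re]

theorem deriv_En (hu : IsSol g ν α u) (s n : ℕ) {t : ℝ} (ht : 0 ≤ t) :
    HasDerivWithinAt (fun t => En s n (u t))
      (-2 * ν * Er ((s : ℝ) + α) n (u t) + 2 * flux g s n (u t)) (Ici 0) t := by
  have h1 : HasDerivWithinAt (fun t => En s n (u t))
      (∑ m ∈ cub n, nsq m ^ s * ∑ j, 2 * ((starRingEnd ℂ) (u t m j) * rhs g ν α (u t) m j).re)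
      (Ici 0) t := by
    unfold En
    exact HasDerivWithinAt.fun_sum fun m _ => (HasDerivWithinAt.fun_sum fun j _ =>
      deriv_term hu m j ht).const_mul _
  have h2 : ∑ m ∈ cub n, nsq m ^ s * ∑ j, 2 * ((starRingEnd ℂ) (u t m j) *
      rhs g ν α (u t) m j).re = -2 * ν * Er ((s : ℝ) + α) n (u t) + 2 * flux g s n (u t) := by
    unfold Er flux
    rw [Complex.re_sum, Finset.mul_sum, Finset.mul_sum, ← Finset.sum_add_distrib]
    refine Finset.sum_congr rfl fun m _ => ?_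
    rw [Complex.re_sum, Finset.mul_sum, Finset.mul_sum, Finset.mul_sum, Finset.mul_sum,
      ← Finset.sum_add_distrib]
    refine Finset.sum_congr rfl fun j _ => ?_
    by_cases hm : m = 0
    · subst hm
      have h0 : u t 0 j = 0 := by rw [(hu.adm t ht).zero]; rfl
      rw [h0]
      simp
    · have h3 : 0 < nsq m := lt_of_lt_of_le one_pos (one_le_nsq hm)
      have h4 : nsq m ^ ((s : ℝ) + α) = nsq m ^ s * nsq m ^ α := by
        rw [Real.rpow_add h3, Real.rpow_natCast]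
      have h5 : ((nsq m : ℂ) ^ s * ((starRingEnd ℂ) (u t m j) *
          (-Complex.I * prj m (conv g (u t) m) j))).re = nsq m ^ s * ((starRingEnd ℂ) (u t m j) *
          (-(Complex.I * prj m (conv g (u t) m) j))).re := by
        rw [← Complex.ofReal_pow, Complex.re_ofReal_mul]
        ring_nf
      rw [h4, h5]
      unfold rhs
      rw [re_term]
      ring
  rw [h2] at h1
  exact h1

end Energy

/-- The constant. -/
theorem exists_D {c ν α b : ℝ} (hν : 0 < ν) (hc : 0 ≤ c) (hb : 0 < b) (hα : b < α) :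
    ∃ D : ℝ, 0 ≤ D ∧ ∀ x : ℝ, 1 ≤ x → c * x ^ b ≤ ν * x ^ α + D := by
  obtain ⟨X, hX1, hX⟩ : ∃ X : ℝ, 1 ≤ X ∧ c ≤ ν * X ^ (α - b) := by
    have h1 := tendsto_rpow_atTop (sub_pos.2 hα)
    have h2 := (h1.eventually_ge_atTop (c / ν)).and (Filter.eventually_ge_atTop (1 : ℝ))
    obtain ⟨X, h3, h4⟩ := h2.exists
    refine ⟨X, h4, ?_⟩
    rw [div_le_iff₀ hν] at h3
    linarith
  refine ⟨c * X ^ b, by positivity, fun x hx => ?_⟩
  rcases le_total x X with h | h
  · have h1 : x ^ b ≤ X ^ b := Real.rpow_le_rpow (by linarith) h hb.le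
    have h2 : 0 ≤ ν * x ^ α := by positivity
    nlinarith [mul_le_mul_of_nonneg_left h1 hc]
  · have h1 : X ^ (α - b) ≤ x ^ (α - b) := Real.rpow_le_rpow (by linarith) h (by linarith)
    have h2 : x ^ α = x ^ (α - b) * x ^ b := by
      rw [← Real.rpow_add (by linarith)]
      congr 1
      ring
    have h3 : 0 ≤ x ^ b := by positivity
    have h4 : c * x ^ b ≤ ν * X ^ (α - b) * x ^ b := mul_le_mul_of_nonneg_right hX h3
    have h5 : ν * X ^ (α - b) * x ^ b ≤ ν * x ^ (α - b) * x ^ b :=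
      mul_le_mul_of_nonneg_right (mul_le_mul_of_nonneg_left h1 hν.le) h3
    have h6 : 0 ≤ c * X ^ b := by positivity
    rw [h2]
    nlinarith

theorem Er_nonneg (r : ℝ) (n : ℕ) (u : Fld) : 0 ≤ Er r n u := by
  unfold Er
  exact Finset.sum_nonneg fun k _ => mul_nonneg (Real.rpow_nonneg (nsq_nonneg k) _)
    (Finset.sum_nonneg fun i _ => by positivity)

theorem En_nonneg (s n : ℕ) (u : Fld) : 0 ≤ En s n u := by
  unfold En
  exact Finset.sum_nonneg fun k _ => mul_nonneg (pow_nonneg (nsq_nonneg k) _)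
    (Finset.sum_nonneg fun i _ => by positivity)

/-- Interpolation. -/
theorem Er_le {c ν α b D : ℝ} (hD : ∀ x : ℝ, 1 ≤ x → c * x ^ b ≤ ν * x ^ α + D) (s n : ℕ)
    {u : Fld} (hu : u 0 = 0) :
    c * Er ((s : ℝ) + b) n u ≤ ν * Er ((s : ℝ) + α) n u + D * En s n u := by
  unfold Er En
  rw [Finset.mul_sum, Finset.mul_sum, Finset.mul_sum, ← Finset.sum_add_distrib]
  refine Finset.sum_le_sum fun m _ => ?_
  by_cases hm : m = 0
  · subst hm
    simp [hu]
  · have h1 := one_le_nsq hm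
    have h3 : 0 < nsq m := lt_of_lt_of_le one_pos h1
    have h4 : ∀ r : ℝ, nsq m ^ ((s : ℝ) + r) = nsq m ^ s * nsq m ^ r := fun r => by
      rw [Real.rpow_add h3, Real.rpow_natCast]
    rw [h4, h4]
    have h5 : 0 ≤ nsq m ^ s * ∑ i, ‖u m i‖ ^ 2 := by positivity
    have h6 := mul_le_mul_of_nonneg_right (hD _ h1) h5
    calc c * (nsq m ^ s * nsq m ^ b * ∑ i, ‖u m i‖ ^ 2)
        = c * nsq m ^ b * (nsq m ^ s * ∑ i, ‖u m i‖ ^ 2) := by ring
      _ ≤ (ν * nsq m ^ α + D) * (nsq m ^ s * ∑ i, ‖u m i‖ ^ 2) := h6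
      _ = _ := by ring

/-- (APR2) a priori bounds for the truncated systems. -/
theorem t_APR2 : S_APR2 := by
  intro hS hA g ν α κ hg hν hκ hα hE u₀ hadm hr s T
  obtain ⟨M0, hM0, hI0⟩ := init_bound hS hr 0
  obtain ⟨M, hM, hI⟩ := init_bound hS hr s
  obtain ⟨C, hC, hCE⟩ := hE s
  have hb : 0 < (1 + κ) / 2 := by linarith
  obtain ⟨D, hD, hDx⟩ := exists_D (c := C * Real.sqrt M0) hν (by positivity) hb hα
  refine ⟨M * Real.exp (2 * D * T), fun n u hu h0 hsupp t ht htT => ?_⟩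
  -- the energy
  have hE0 : ∀ t, 0 ≤ t → En 0 n (u t) ≤ M0 := by
    intro t ht
    have h1 := gron (c := 0) (fun t ht => deriv_En hu 0 n ht) (fun t ht => by
      rw [(hA g n (u t) hg (hu.adm t ht) (hsupp t ht)).2]
      have h2 := Er_nonneg (((0 : ℕ) : ℝ) + α) n (u t)
      nlinarith [mul_nonneg hν.le h2]) t ht
    rw [zero_mul, Real.exp_zero, mul_one, h0] at h1
    exact h1.trans (hI0 n)
  -- the other norms
  have h1 := gron (c := 2 * D) (fun t ht => deriv_En hu s n ht) (fun t ht => by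
    rw [(hA g n (u t) hg (hu.adm t ht) (hsupp t ht)).1 s]
    have h2 : (-Complex.I * form g s n (u t)).re ≤ ‖form g s n (u t)‖ := by
      refine (Complex.re_le_norm _).trans ?_
      simp
    have h3 := hCE n (u t) (hu.adm t ht) (hsupp t ht)
    have h4 : Real.sqrt (En 0 n (u t)) ≤ Real.sqrt M0 := Real.sqrt_le_sqrt (hE0 t ht)
    have h5 := Er_nonneg ((s : ℝ) + (1 + κ) / 2) n (u t)
    have h6 : C * Real.sqrt (En 0 n (u t)) * Er ((s : ℝ) + (1 + κ) / 2) n (u t)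
        ≤ C * Real.sqrt M0 * Er ((s : ℝ) + (1 + κ) / 2) n (u t) :=
      mul_le_mul_of_nonneg_right (mul_le_mul_of_nonneg_left h4 hC) h5
    have h7 := Er_le hDx s n (u := u t) (hu.adm t ht).zero
    linarith) t ht
  rw [h0] at h1
  refine h1.trans ?_
  have h2 : Real.exp (2 * D * t) ≤ Real.exp (2 * D * T) := by
    apply Real.exp_le_exp.2
    nlinarith [mul_le_mul_of_nonneg_left htT hD]
  exact mul_le_mul (hI n) h2 (Real.exp_pos _).le hM

end Pool.Agent.U527.RT
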